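import Mathlib
import Pool.Agent.R627.KOHeis

/-!
Every locally compact abelian group is the intersection of the kernels of all ordinary
representations of some locally compact group.
-/

namespace Pool.Agent.Results.MP_607283_al.LcaKernel

open Pool.Agent.R627.KOHeis

universe u

theorem result (A : Type u) [CommGroup A] [TopologicalSpace A] [IsTopologicalGroup A]
    [T2Space A] [LocallyCompactSpace A] :
    ∃ (G : Type u) (_ : Group G) (_ : TopologicalSpace G) (_ : IsTopologicalGroup G)
      (_ : T2Space G) (_ : LocallyCompactSpace G), Nonempty (A ≃ₜ* KO G) :=
  main A

end Pool.Agent.Results.MP_607283_al.LcaKernel
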